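import Pool.Agent.helper97.AS.Spec

set_option autoImplicit false

/-! # Row ONE of the spec AS -/

namespace Pool.Agent.helper97.AS

open Pool.Agent.helper20.LB (Step F IsSq Same Bd co)

theorem ONE : ONE_stmt := by
  intro f M τ hP hM hodd hMM H
  obtain ⟨hS, -, hper⟩ := hP
  have e1 : f (-1) = f 0 := by
    have h1 := hper 0
    have h2 := hper (-1)
    rw [zero_add] at h1
    rw [show (-1 : ℤ) + (M + 1) = M by ring] at h2
    omega
  have e2 : f 1 = f 0 + 1 := by
    have h1 := H 1 (-1) le_rfl (by omega) (by norm_num) le_rfl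
    rw [show (-1 : ℤ) + 2 * 1 = 1 by norm_num, show (-1 : ℤ) + 1 = 0 by norm_num] at h1
    have h2 := hS 0
    rw [zero_add] at h2
    omega
  have e3 : f (-2) = f 0 - 1 := by
    have h1 := H 1 (-2) le_rfl (by omega) (by norm_num) (by norm_num)
    rw [show (-2 : ℤ) + 2 * 1 = 0 by norm_num, show (-2 : ℤ) + 1 = -1 by norm_num] at h1
    have h2 := hS (-2)
    rw [show (-2 : ℤ) + 1 = -1 by norm_num] at h2
    omega
  have key : ∀ i : ℕ, (i : ℤ) + 1 ≤ M → ∀ j : ℤ, 0 ≤ j → j ≤ (i : ℤ) + 1 → f j = f 0 + j := by
    intro i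
    induction i with
    | zero =>
      intro _ j h0 h1
      have hj : j = 0 ∨ j = 1 := by
        push_cast at h1
        omega
      rcases hj with h | h
      · rw [h, add_zero]
      · rw [h]
        exact e2
    | succ i ih =>
      intro hi j h0 h1
      push_cast at hi h1
      have ih' := ih (by omega)
      rcases lt_or_eq_of_le h1 with h2 | h2
      · exact ih' j h0 (by omega)
      · have hfi : f ((i : ℤ) + 1) = f 0 + ((i : ℤ) + 1) := ih' _ (by omega) le_rfl
        have hst := hS ((i : ℤ) + 1)
        have hne : f ((i : ℤ) + 1 + 1) ≠ f 0 + ((i : ℤ) + 1) := by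
          rcases Int.emod_two_eq_zero_or_one (i : ℤ) with h3 | h3
          · -- `i + 2` is even
            obtain ⟨r, hr⟩ : ∃ r : ℤ, 2 * r = (i : ℤ) + 4 := ⟨((i : ℤ) + 4) / 2, by omega⟩
            have h4 := H r (-2) (by omega) (by omega) (by omega) (by norm_num)
            rw [show (-2 : ℤ) + 2 * r = (i : ℤ) + 1 + 1 by omega, e3,
              ih' (-2 + r) (by omega) (by omega)] at h4
            omega
          · -- `i + 2` is odd
            obtain ⟨r, hr⟩ : ∃ r : ℤ, 2 * r = (i : ℤ) + 3 := ⟨((i : ℤ) + 3) / 2, by omega⟩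
            have h4 := H r (-1) (by omega) (by omega) (by omega) le_rfl
            rw [show (-1 : ℤ) + 2 * r = (i : ℤ) + 1 + 1 by omega, e1,
              ih' (-1 + r) (by omega) (by omega)] at h4
            omega
        rw [h2]
        omega
  intro y h0 hy
  have h1 := key (M - 1).toNat (by omega) (y + 1) (by omega) (by omega)
  have h2 := key (M - 1).toNat (by omega) y h0 (by omega)
  omega

end Pool.Agent.helper97.AS
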